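import Pool.Agent.H928.IN.Main

/-!
# A Bergman inner function of `A²_1` which is not the derivative of a bounded function
(Q1 of MP_6e4f46_an is false)

Take `H = ∑_j b_j n_j z^(n_j - 1)`, the derivative of the lacunary series `∑ b_j z^(n_j)` with
`b_j = 1 / (j + 1)` and `n_j = 2^(20 j²)`: `∑ b_j² < ∞`, but `∑ b_j = ∞`, so `H` is not the derivative
of a bounded function. The Gram matrix `μ(m, n) = ⟨z^m H, z^n H⟩` is diagonally dominant (the
differences `n_i - n_j` are distinct), so the linear system `∑_m h_m μ(m, n) = 0 (n ≥ 1)`, `h_0 = 1`,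
has an absolutely summable solution with `∑_{n ≥ 1} |h_n| ≤ 1 / 3`. Then `φ = c H h`, `h = ∑ h_n z^n`,
is orthogonal to `z^n H` (`n ≥ 1`), which makes it the Bergman inner function of `[H]`, and as `h` is
invertible in the Wiener algebra, with `Re h ≥ 2 / 3`, the primitive of `φ` is unbounded as well.
-/

set_option autoImplicit false

open MeasureTheory Set Filter Topology Complex Metric

namespace Pool.Agent.Results.MP_6e4f46_an.InnerNotBoundedDerivative

/-- The measure `dA₁ = 2 (1 - |z|²) dA`, `dA = π⁻¹ dx dy`, on the unit disc. -/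
noncomputable def dA1 : Measure ℂ :=
  (volume.restrict (ball (0 : ℂ) 1)).withDensity
    (fun z => ENNReal.ofReal (2 * (1 - ‖z‖ ^ 2) / Real.pi))

/-- `f` belongs to the weighted Bergman space `A²_1`. -/
def InA (f : ℂ → ℂ) : Prop :=
  DifferentiableOn ℂ f (ball 0 1) ∧ Integrable (fun z => ‖f z‖ ^ 2) dA1

/-- The square of the norm of `A²_1`. -/
noncomputable def nrm2 (f : ℂ → ℂ) : ℝ := ∫ z, ‖f z‖ ^ 2 ∂dA1

/-- The 1-generated invariant subspace `[H]`: the closure in `A²_1` of the set of the products `H p`,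
`p` a polynomial. -/
def Gen (H : ℂ → ℂ) : Set (ℂ → ℂ) :=
  {g | InA g ∧ ∀ ε > (0 : ℝ), ∃ p : Polynomial ℂ, nrm2 (fun z => g z - H z * p.eval z) < ε}

/-- `φ` is the Bergman inner function of the invariant subspace `X`: with `k` the smallest order of
vanishing at `0` among the functions in `X`, `φ ∈ X` has norm at most one and maximises
`Re f^(k)(0)` over the functions `f ∈ X` of norm at most one. -/
def IsInner (X : Set (ℂ → ℂ)) (φ : ℂ → ℂ) : Prop :=
  ∃ k : ℕ, (∀ g ∈ X, ∀ i < k, iteratedDeriv i g 0 = 0) ∧ (∃ g ∈ X, iteratedDeriv k g 0 ≠ 0) ∧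
    φ ∈ X ∧ nrm2 φ ≤ 1 ∧
    ∀ g ∈ X, nrm2 g ≤ 1 → (iteratedDeriv k g 0).re ≤ (iteratedDeriv k φ 0).re

/-- `g` is the derivative of a bounded holomorphic function on the unit disc. -/
def IsDerivOfBounded (g : ℂ → ℂ) : Prop :=
  ∃ F : ℂ → ℂ, DifferentiableOn ℂ F (ball 0 1) ∧ (∃ M : ℝ, ∀ z ∈ ball (0 : ℂ) 1, ‖F z‖ ≤ M) ∧
    ∀ z ∈ ball (0 : ℂ) 1, deriv F z = g z

/-- **Q1 is false.** There is a nonzero `H ∈ A²_1` such that the 1-generated invariant subspace `[H]`
has a Bergman inner function, and (every function satisfying the definition of) the Bergman inner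
function of `[H]` is not the derivative of a bounded holomorphic function. -/
theorem result : ∃ H : ℂ → ℂ, InA H ∧ (∃ z ∈ ball (0 : ℂ) 1, H z ≠ 0) ∧
    (∃ φ, IsInner (Gen H) φ) ∧ ∀ φ, IsInner (Gen H) φ → ¬ IsDerivOfBounded φ :=
  Pool.Agent.H928.IN.main

end Pool.Agent.Results.MP_6e4f46_an.InnerNotBoundedDerivative
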